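import Mathlib

set_option autoImplicit false

namespace Pool.Agent.H77.PI

open Finset

universe u

variable {R : Type u} [Ring R]

private theorem prod_ite_ofFn {l D : ℕ} (p : Fin l → Fin D) (y : Fin D → R) (P : Fin l → Prop)
    [DecidablePred P] :
    (List.ofFn (fun k => if P k then y (p k) else 0)).prod =
      if ∀ k, P k then (List.ofFn (fun k => y (p k))).prod else 0 := by
  split_ifs with h
  · congr 2
    funext k
    rw [if_pos (h k)]
  · push Not at h
    obtain ⟨k, hk⟩ := h
    apply List.prod_eq_zero
    rw [List.mem_ofFn]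
    exact ⟨k, if_neg hk⟩

/-- substitution -/
private def sub {m D : ℕ} (i : Fin D → Fin m) (y : Fin D → R) (S : Finset (Fin D)) : Fin m → R :=
  fun a => ∑ j, if j ∈ S ∧ i j = a then y j else 0

private theorem prod_sub {m D : ℕ} (i : Fin D → Fin m) (y : Fin D → R) (S : Finset (Fin D))
    {l : ℕ} (v : Fin l → Fin m) :
    (List.ofFn (fun k => sub i y S (v k))).prod =
      ∑ p : Fin l → Fin D, if (∀ k, p k ∈ S) ∧ (∀ k, i (p k) = v k) then
        (List.ofFn (fun k => y (p k))).prod else 0 := by
  have h1 := (MultilinearMap.mkPiAlgebraFin ℤ l R).map_sum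
    (fun (k : Fin l) (j : Fin D) => if j ∈ S ∧ i j = v k then y j else 0)
  simp only [MultilinearMap.mkPiAlgebraFin_apply] at h1
  unfold sub
  rw [h1]
  refine Finset.sum_congr rfl fun p _ => ?_
  rw [prod_ite_ofFn p y (fun k => p k ∈ S ∧ i (p k) = v k)]
  simp only [forall_and]

private theorem alt_sum {D l : ℕ} (p : Fin l → Fin D) :
    (∑ S : Finset (Fin D), if (∀ k, p k ∈ S) then (-1 : ℤ) ^ Sᶜ.card else 0) =
      if Function.Surjective p then 1 else 0 := by
  have h1 : (∑ S : Finset (Fin D), if (∀ k, p k ∈ S) then (-1 : ℤ) ^ Sᶜ.card else 0) =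
      ∑ U ∈ ((Finset.univ.image p)ᶜ).powerset, (-1 : ℤ) ^ U.card := by
    rw [← Finset.sum_filter]
    refine Finset.sum_bij' (fun S _ => Sᶜ) (fun U _ => Uᶜ) ?_ ?_ ?_ ?_ ?_
    · intro S hS
      rw [mem_filter] at hS
      rw [mem_powerset, compl_subset_compl]
      intro x hx
      rw [mem_image] at hx
      obtain ⟨k, -, rfl⟩ := hx
      exact hS.2 k
    · intro U hU
      rw [mem_powerset] at hU
      rw [mem_filter]
      refine ⟨mem_univ _, fun k => ?_⟩
      rw [mem_compl]
      intro h
      have h2 := hU h
      rw [mem_compl] at h2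
      exact h2 (mem_image_of_mem _ (mem_univ k))
    · intro S _
      exact compl_compl S
    · intro S _
      exact compl_compl S
    · intro S _
      rfl
  rw [h1, Finset.sum_powerset_neg_one_pow_card]
  congr 1
  rw [Finset.compl_eq_empty_iff, Finset.eq_univ_iff_forall]
  apply propext
  constructor
  · intro h x
    have h2 := h x
    rw [mem_image] at h2
    obtain ⟨k, -, hk⟩ := h2
    exact ⟨k, hk⟩
  · intro h x
    obtain ⟨k, hk⟩ := h x
    rw [mem_image]
    exact ⟨k, mem_univ _, hk⟩

private theorem alt_prod {m D : ℕ} (i : Fin D → Fin m) (y : Fin D → R) {l : ℕ}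
    (v : Fin l → Fin m) :
    ∑ S : Finset (Fin D), ((-1 : ℤ) ^ Sᶜ.card) • (List.ofFn (fun k => sub i y S (v k))).prod =
      ∑ p : Fin l → Fin D, if Function.Surjective p ∧ (∀ k, i (p k) = v k) then
        (List.ofFn (fun k => y (p k))).prod else 0 := by
  simp_rw [prod_sub, Finset.smul_sum]
  rw [Finset.sum_comm]
  refine Finset.sum_congr rfl fun p _ => ?_
  by_cases h : ∀ k, i (p k) = v k
  · have h1 : ∀ S : Finset (Fin D), ((-1 : ℤ) ^ Sᶜ.card) • (if (∀ k, p k ∈ S) ∧
        (∀ k, i (p k) = v k) then (List.ofFn (fun k => y (p k))).prod else 0) =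
        (if (∀ k, p k ∈ S) then (-1 : ℤ) ^ Sᶜ.card else 0) •
          (List.ofFn (fun k => y (p k))).prod := by
      intro S
      by_cases hS : ∀ k, p k ∈ S
      · rw [if_pos ⟨hS, h⟩, if_pos hS]
      · rw [if_neg (fun hc => hS hc.1), if_neg hS, smul_zero, zero_smul]
    simp_rw [h1]
    rw [← Finset.sum_smul, alt_sum]
    by_cases hs : Function.Surjective p
    · rw [if_pos hs, if_pos ⟨hs, h⟩, one_smul]
    · rw [if_neg hs, if_neg (fun hc => hs hc.1), zero_smul]
  · have h1 : ∀ S : Finset (Fin D), ((-1 : ℤ) ^ Sᶜ.card) • (if (∀ k, p k ∈ S) ∧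
        (∀ k, i (p k) = v k) then (List.ofFn (fun k => y (p k))).prod else 0) = 0 := by
      intro S
      rw [if_neg (fun hc => h hc.2), smul_zero]
    simp_rw [h1]
    rw [Finset.sum_const_zero, if_neg (fun hc => h hc.2)]

/-- The multilinearisation of an identity with coefficient one at a word of maximal length. -/
theorem multilinear_of_identity {m : ℕ} (f : MonoidAlgebra ℤ (FreeMonoid (Fin m)))
    (w : FreeMonoid (Fin m)) (hw : f.coeff w = 1)
    (hmax : ∀ v, f.coeff v ≠ 0 → v.length ≤ w.length)
    (hf : ∀ x : Fin m → R, MonoidAlgebra.lift ℤ R (FreeMonoid (Fin m)) (FreeMonoid.lift x) f = 0) :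
    ∃ c : Equiv.Perm (Fin w.length) → ℤ, c 1 = 1 ∧ ∀ y : Fin w.length → R,
      ∑ σ : Equiv.Perm (Fin w.length), ((c σ : ℤ) : R) *
        (List.ofFn (fun i => y (σ i))).prod = 0 := by
  set D := w.length with hD
  let wl : List (Fin m) := FreeMonoid.toList w
  have hwl : wl.length = D := rfl
  let i : Fin D → Fin m := fun j => wl.get (Fin.cast hwl.symm j)
  have hiw : List.ofFn i = wl := by
    apply List.ext_get
    · rw [List.length_ofFn]
      exact hwl.symm
    · intro n h1 h2
      simp [i]
  classical
  refine ⟨fun σ => f.coeff (FreeMonoid.ofList (List.ofFn (fun k => i (σ k)))), ?_, ?_⟩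
  · show f.coeff (FreeMonoid.ofList (List.ofFn (fun k => i ((1 : Equiv.Perm (Fin D)) k)))) = 1
    have h1 : (FreeMonoid.ofList (List.ofFn (fun k => i ((1 : Equiv.Perm (Fin D)) k)))) = w := by
      show (FreeMonoid.ofList (List.ofFn i)) = w
      rw [hiw]
      rfl
    rw [h1, hw]
  · intro y
    -- values
    have hval : ∀ x : Fin m → R, ∑ v ∈ f.coeff.support, f.coeff v •
        ((FreeMonoid.toList v).map x).prod = 0 := by
      intro x
      have h1 := hf x
      rw [MonoidAlgebra.lift_apply] at h1
      rw [← h1, Finsupp.sum]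
      refine Finset.sum_congr rfl fun v _ => ?_
      rw [FreeMonoid.lift_apply]
    have hsum : ∑ S : Finset (Fin D), ((-1 : ℤ) ^ Sᶜ.card) • (∑ v ∈ f.coeff.support, f.coeff v •
        ((FreeMonoid.toList v).map (sub i y S)).prod) = 0 := by
      apply Finset.sum_eq_zero
      intro S _
      rw [hval, smul_zero]
    have hword : ∀ v ∈ f.coeff.support, ∑ S : Finset (Fin D), ((-1 : ℤ) ^ Sᶜ.card) •
        ((FreeMonoid.toList v).map (sub i y S)).prod =
        ∑ σ : Equiv.Perm (Fin D), if FreeMonoid.ofList (List.ofFn (fun k => i (σ k))) = v then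
          (List.ofFn (fun k => y (σ k))).prod else 0 := by
      intro v hv
      have hlen : (FreeMonoid.toList v).length ≤ D := hmax v (Finsupp.mem_support_iff.1 hv)
      rcases hlen.lt_or_eq with hlt | heq
      · -- no surjection
        have e1 : ∀ S : Finset (Fin D), ((FreeMonoid.toList v).map (sub i y S)) =
            List.ofFn (fun k : Fin (FreeMonoid.toList v).length =>
              sub i y S ((FreeMonoid.toList v).get k)) := by
          intro S
          apply List.ext_get
          · simp
          · intro n h1 h2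
            simp
        simp_rw [e1]
        rw [alt_prod i y, Finset.sum_eq_zero, Finset.sum_eq_zero]
        · intro σ _
          rw [if_neg]
          intro h2
          have h3 := congrArg (fun t => (FreeMonoid.toList t).length) h2
          simp only [FreeMonoid.toList_ofList, List.length_ofFn] at h3
          omega
        · intro p _
          rw [if_neg]
          rintro ⟨h2, -⟩
          have h3 := Fintype.card_le_of_surjective p h2
          rw [Fintype.card_fin, Fintype.card_fin] at h3
          omega
      · -- permutations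
        obtain ⟨v', hv'⟩ : ∃ v' : Fin D → Fin m, FreeMonoid.toList v = List.ofFn v' := by
          refine ⟨fun k => (FreeMonoid.toList v).get (Fin.cast heq.symm k), ?_⟩
          apply List.ext_get
          · rw [List.length_ofFn, heq]
          · intro n h1 h2
            simp
        have hv2 : v = FreeMonoid.ofList (List.ofFn v') := by
          rw [← hv', FreeMonoid.ofList_toList]
        have e1 : ∀ S : Finset (Fin D), ((FreeMonoid.toList v).map (sub i y S)) =
            List.ofFn (fun k => sub i y S (v' k)) := by
          intro S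
          rw [hv', List.map_ofFn]
          rfl
        simp_rw [e1]
        rw [alt_prod i y]
        have e2 : ∀ p : Fin D → Fin D, (if Function.Surjective p ∧ (∀ k, i (p k) = v' k) then
            (List.ofFn (fun k => y (p k))).prod else 0) =
            if Function.Surjective p then (if (∀ k, i (p k) = v' k) then
            (List.ofFn (fun k => y (p k))).prod else 0) else 0 := by
          intro p
          rw [ite_and]
        simp_rw [e2]
        rw [← Finset.sum_filter]
        symm
        refine Finset.sum_bij (fun (σ : Equiv.Perm (Fin D)) _ => (⇑σ : Fin D → Fin D)) ?_ ?_ ?_ ?_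
        · intro σ _
          exact mem_filter.2 ⟨mem_univ _, σ.surjective⟩
        · intro σ _ τ _ h
          exact DFunLike.coe_injective h
        · intro p hp
          have hs := (mem_filter.1 hp).2
          exact ⟨Equiv.ofBijective p ⟨Finite.injective_iff_surjective.2 hs, hs⟩, mem_univ _, rfl⟩
        · intro σ _
          have h8 : (FreeMonoid.ofList (List.ofFn (fun k => i (σ k))) = v) ↔
              ∀ k, i (σ k) = v' k := by
            rw [hv2, FreeMonoid.ofList.injective.eq_iff, List.ofFn_inj]
            exact funext_iff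
          simp only [h8]
    simp_rw [Finset.smul_sum] at hsum
    rw [Finset.sum_comm] at hsum
    have h5 : ∀ v ∈ f.coeff.support, ∑ S : Finset (Fin D), ((-1 : ℤ) ^ Sᶜ.card) •
        (f.coeff v • ((FreeMonoid.toList v).map (sub i y S)).prod) =
        ∑ σ : Equiv.Perm (Fin D), if FreeMonoid.ofList (List.ofFn (fun k => i (σ k))) = v then
          f.coeff v • (List.ofFn (fun k => y (σ k))).prod else 0 := by
      intro v hv
      have h6 := congrArg (fun t => f.coeff v • t) (hword v hv)
      simp only [Finset.smul_sum, smul_ite, smul_zero] at h6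
      rw [← h6]
      refine Finset.sum_congr rfl fun S _ => ?_
      rw [smul_comm]
    rw [Finset.sum_congr rfl h5, Finset.sum_comm] at hsum
    rw [← hsum]
    refine Finset.sum_congr rfl fun σ _ => ?_
    rw [Finset.sum_ite_eq]
    split_ifs with h7
    · rw [zsmul_eq_mul]
    · rw [Finsupp.notMem_support_iff] at h7
      simp only [h7, Int.cast_zero, zero_mul]

end Pool.Agent.H77.PI
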